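import Pool.Agent.T9h42.JA.RelO
import Pool.Agent.T9h42.JB.Fam

/-!
# The diophantine input for algebraic numbers and several bases
-/

set_option autoImplicit false
set_option linter.unusedSectionVars false

open Finset Filter Topology

namespace Pool.Agent.T9h42.JA

open Pool.Agent.T9h42.JB (mo mo_pos row row_sum)

variable {R : Type} [Fintype R] [DecidableEq R]

/-- the ring of integers of the field generated by real algebraic numbers -/
theorem exists_ring (α : R → ℝ) (hα : ∀ ρ, IsAlgebraic ℚ (α ρ)) :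
    ∃ (O : Type) (_ : CommRing O) (_ : IsDomain O) (_ : CharZero O) (_ : Module.Free ℤ O)
      (_ : Module.Finite ℤ O) (φ : O →+* ℂ), Function.Injective φ ∧ (∀ x, (φ x).im = 0) ∧
      ∃ (D : ℤ) (a : R → O), D ≠ 0 ∧ ∀ ρ, φ (a ρ) = ((D * α ρ : ℝ) : ℂ) := by
  set K := IntermediateField.adjoin ℚ (Set.range α) with hK
  have hfin : FiniteDimensional ℚ K :=
    IntermediateField.finiteDimensional_adjoin (fun x hx => by
      obtain ⟨ρ, rfl⟩ := hx
      exact (hα ρ).isIntegral)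
  have : NumberField K := { to_charZero := inferInstance, to_finiteDimensional := hfin }
  have hmem : ∀ ρ, α ρ ∈ K := fun ρ => IntermediateField.subset_adjoin _ _ ⟨ρ, rfl⟩
  have hint : ∀ ρ, ∃ D : ℤ, D ≠ 0 ∧ IsIntegral ℤ ((D : ℝ) * α ρ) := by
    intro ρ
    have h1 : IsAlgebraic ℤ (α ρ) := (IsFractionRing.isAlgebraic_iff ℤ ℚ ℝ).2 (hα ρ)
    obtain ⟨y, hy, h2⟩ := h1.exists_integral_multiple
    refine ⟨y, hy, ?_⟩
    rwa [zsmul_eq_mul] at h2
  choose D hD hDi using hint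
  set φ : NumberField.RingOfIntegers K →+* ℂ :=
    (Complex.ofRealHom.comp (algebraMap K ℝ)).comp (algebraMap (NumberField.RingOfIntegers K) K) with hφ
  refine ⟨NumberField.RingOfIntegers K, inferInstance, inferInstance, inferInstance, inferInstance,
    inferInstance, φ, ?_, ?_, ∏ ρ, D ρ, ?_⟩
  · rw [hφ]
    intro x y hxy
    simp only [RingHom.comp_apply] at hxy
    have h1 := Complex.ofReal_injective hxy
    have h2 := (algebraMap K ℝ).injective h1
    exact NumberField.RingOfIntegers.ext h2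
  · intro x
    rw [hφ]
    simp
  · have hint' : ∀ ρ, IsIntegral ℤ (((∏ σ, D σ : ℤ) : ℝ) * α ρ) := by
      intro ρ
      rw [← Finset.mul_prod_erase _ _ (mem_univ ρ)]
      have e1 : ((D ρ * ∏ σ ∈ univ.erase ρ, D σ : ℤ) : ℝ) * α ρ =
          ((∏ σ ∈ univ.erase ρ, D σ : ℤ) : ℝ) * ((D ρ : ℝ) * α ρ) := by
        push_cast
        ring
      rw [e1]
      have h3 : IsIntegral ℤ ((∏ σ ∈ univ.erase ρ, D σ : ℤ) : ℝ) := by
        have := isIntegral_algebraMap (R := ℤ) (A := ℝ) (x := (∏ σ ∈ univ.erase ρ, D σ : ℤ))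
        simpa using this
      exact h3.mul (hDi ρ)
    have hex : ∀ ρ, ∃ a : NumberField.RingOfIntegers K, φ a = ((((∏ σ, D σ : ℤ) : ℝ) * α ρ : ℝ) : ℂ) := by
      intro ρ
      set y : K := ((∏ σ, D σ : ℤ) : K) * ⟨α ρ, hmem ρ⟩ with hy
      have hy1 : algebraMap K ℝ y = ((∏ σ, D σ : ℤ) : ℝ) * α ρ := by
        rw [hy, map_mul, map_intCast]
        rfl
      have hyi : IsIntegral ℤ y := by
        rw [← isIntegral_algebraMap_iff (A := K) (B := ℝ) (algebraMap K ℝ).injective, hy1]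
        exact hint' ρ
      refine ⟨⟨y, hyi⟩, ?_⟩
      rw [hφ]
      simp only [RingHom.comp_apply]
      have e2 : algebraMap (NumberField.RingOfIntegers K) K ⟨y, hyi⟩ = y := rfl
      rw [e2, hy1]
      rfl
    choose a ha using hex
    exact ⟨a, prod_ne_zero_iff.2 fun ρ _ => hD ρ, ha⟩

/-- one exponent -/
def ex1 (ρ : R) (n : ℕ) : R → ℕ := fun σ => if σ = ρ then n else 0

lemma mo_ex1 (b : R → ℕ) (ρ : R) (n : ℕ) : mo b (ex1 ρ n) = (b ρ : ℤ) ^ n := by
  unfold mo ex1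
  rw [Finset.prod_eq_single ρ]
  · rw [if_pos rfl]
  · intro σ _ hσ
    rw [if_neg hσ, pow_zero]
  · intro h
    exact absurd (mem_univ ρ) h

lemma mo_zero (b : R → ℕ) : mo b (fun _ => 0) = 1 := by
  unfold mo
  simp

/-- sums of few almost units times algebraic numbers are not close to integers, for fixed rows -/
theorem farFix {α : R → ℝ} (hα : ∀ ρ, IsAlgebraic ℚ (α ρ)) {b : R → ℕ} (hb : ∀ ρ, 1 ≤ b ρ)
    (k : ℕ) (r : Fin k → R) (A : ℝ) {δ : ℝ} (hδ : 0 < δ) :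
    ∃ η : ℝ, 0 < η ∧ ∃ x0 : ℝ, ∀ x : ℝ, x0 ≤ x → ∀ (n : Fin k → ℕ) (h : Fin k → ℤ) (P : ℤ),
      (∀ i, (n i : ℝ) ≤ A * x) → (∀ i, |(h i : ℝ)| ≤ Real.exp (η * x)) →
      ∑ ρ, (row b r n h ρ : ℝ) * α ρ ≠ P →
      Real.exp (-(δ * x)) < |∑ ρ, (row b r n h ρ : ℝ) * α ρ - P| := by
  obtain ⟨O, _, _, _, _, _, φ, hinj, hreal, D, a, hD, ha⟩ := exists_ring α hα
  by_contra hcon
  push Not at hcon
  have hD0 : (0 : ℝ) < |(D : ℝ)| := abs_pos.2 (by exact_mod_cast hD)
  have hc : ∀ t : ℕ, ∃ x : ℝ, (t : ℝ) ≤ x ∧ Real.log |(D : ℝ)| / (δ / 2) ≤ x ∧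
      ∃ (n : Fin k → ℕ) (h : Fin k → ℤ) (P : ℤ), (∀ i, (n i : ℝ) ≤ A * x) ∧
      (∀ i, |(h i : ℝ)| ≤ Real.exp (1 / ((t : ℝ) + 1) * x)) ∧
      ∑ ρ, (row b r n h ρ : ℝ) * α ρ ≠ P ∧
      |∑ ρ, (row b r n h ρ : ℝ) * α ρ - P| ≤ Real.exp (-(δ * x)) := by
    intro t
    obtain ⟨x, hx, n, h, P, h1, h2, h3, h4⟩ :=
      hcon (1 / ((t : ℝ) + 1)) (by positivity) (max t (Real.log |(D : ℝ)| / (δ / 2)))
    exact ⟨x, (le_max_left _ _).trans hx, (le_max_right _ _).trans hx, n, h, P, h1, h2, h3, h4⟩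
  choose x hx hxD n h P h3 h5 h6 h7 using hc
  have hxt : Tendsto x atTop atTop := tendsto_atTop_mono hx tendsto_natCast_atTop_atTop
  have hx0 : ∀ t, 0 ≤ x t := fun t => (Nat.cast_nonneg t).trans (hx t)
  have hg : ∀ v, 0 < b v := hb
  set C : ℝ := |A| * ∑ v, Real.log (b v) with hC
  have hlog : ∀ v, 0 ≤ Real.log (b v : ℝ) := fun v => Real.log_natCast_nonneg _
  have hC0 : 0 ≤ C := mul_nonneg (abs_nonneg _) (sum_nonneg fun v _ => hlog v)
  have hAx : ∀ t, A * x t ≤ |A| * x t := fun t =>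
    mul_le_mul_of_nonneg_right (le_abs_self A) (hx0 t)
  have hform : ∀ t, φ (∑ i, a (r i) * ((mo b (ex1 (r i) (n t i)) * h t i : ℤ) : O) -
      (D : O) * ((mo b (fun _ => 0) * P t : ℤ) : O)) =
      ((D * (∑ ρ, (row b r (n t) (h t) ρ : ℝ) * α ρ - P t) : ℝ) : ℂ) := by
    intro t
    rw [← row_sum b r (n t) (h t) α, map_sub, map_sum, map_mul, map_intCast, map_intCast]
    simp only [map_mul, map_intCast, ha, mo_ex1, mo_zero]
    push_cast
    rw [mul_sub, mul_sum]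
    congr 1
    · refine sum_congr rfl fun i _ => ?_
      ring
    · ring
  refine fin_relO φ hreal hinj b hg C hC0 k (Fin k) (by simp) (δ / 2) (by positivity) x hxt
    (fun t i => ex1 (r i) (n t i)) (fun t _ => 0) h P (fun i => a (r i)) (D : O)
    (by exact_mod_cast hD) ?_ ?_ ?_ ?_ ?_ ?_
  · intro t i
    rw [mo_ex1]
    push_cast
    have hpos : (0 : ℝ) < b (r i) := by exact_mod_cast hg (r i)
    rw [← Real.log_le_iff_le_exp (by positivity), Real.log_pow, hC]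
    have e1 : Real.log (b (r i)) ≤ ∑ v, Real.log (b v : ℝ) :=
      single_le_sum (f := fun v => Real.log (b v : ℝ)) (fun v _ => hlog v) (mem_univ (r i))
    calc (n t i : ℝ) * Real.log (b (r i)) ≤ (|A| * x t) * ∑ v, Real.log (b v : ℝ) :=
          mul_le_mul ((h3 t i).trans (hAx t)) e1 (hlog _) (mul_nonneg (abs_nonneg _) (hx0 t))
      _ = |A| * (∑ v, Real.log (b v : ℝ)) * x t := by ring
  · intro t
    rw [mo_zero, Int.cast_one]
    exact Real.one_le_exp (mul_nonneg hC0 (hx0 t))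
  · intro t i
    rw [mo_zero, mo_ex1]
    have : (1 : ℤ) ≤ b (r i) := by exact_mod_cast hb (r i)
    exact one_le_pow₀ this
  · intro ε hε
    obtain ⟨t0, ht0⟩ := exists_nat_gt (1 / ε)
    filter_upwards [eventually_ge_atTop t0] with t ht i
    refine (h5 t i).trans (Real.exp_le_exp.2 ?_)
    apply mul_le_mul_of_nonneg_right _ (hx0 t)
    rw [div_le_iff₀ (by positivity)]
    have e1 : (t0 : ℝ) ≤ t := by exact_mod_cast ht
    rw [div_lt_iff₀ hε] at ht0
    nlinarith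
  · intro t
    rw [hform t, mo_zero, Int.cast_one, one_mul, Complex.norm_real, Real.norm_eq_abs, abs_mul]
    have e1 : |(D : ℝ)| ≤ Real.exp (δ / 2 * x t) := by
      have ht := hxD t
      rw [div_le_iff₀ (by positivity)] at ht
      calc |(D : ℝ)| = Real.exp (Real.log |(D : ℝ)|) := (Real.exp_log hD0).symm
        _ ≤ _ := Real.exp_le_exp.2 (by linarith)
    calc |(D : ℝ)| * _ ≤ Real.exp (δ / 2 * x t) * Real.exp (-(δ * x t)) :=
          mul_le_mul e1 (h7 t) (abs_nonneg _) (Real.exp_pos _).le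
      _ = Real.exp (-(δ / 2 * x t)) := by
          rw [← Real.exp_add]
          congr 1
          ring
  · intro t h0
    have e1 := hform t
    rw [h0, map_zero] at e1
    have e2 : (D : ℝ) * (∑ ρ, (row b r (n t) (h t) ρ : ℝ) * α ρ - P t) = 0 := by
      exact_mod_cast e1.symm
    rcases mul_eq_zero.1 e2 with e3 | e3
    · exact hD (by exact_mod_cast e3)
    · exact h6 t (by linarith)

/-- sums of few almost units times algebraic numbers are not close to integers -/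
theorem farA {α : R → ℝ} (hα : ∀ ρ, IsAlgebraic ℚ (α ρ)) {b : R → ℕ} (hb : ∀ ρ, 1 ≤ b ρ)
    (k : ℕ) (A : ℝ) {δ : ℝ} (hδ : 0 < δ) :
    ∃ η : ℝ, 0 < η ∧ ∃ x0 : ℝ, ∀ x : ℝ, x0 ≤ x → ∀ (r : Fin k → R) (n : Fin k → ℕ)
      (h : Fin k → ℤ) (P : ℤ),
      (∀ i, (n i : ℝ) ≤ A * x) → (∀ i, |(h i : ℝ)| ≤ Real.exp (η * x)) →
      ∑ ρ, (row b r n h ρ : ℝ) * α ρ ≠ P →
      Real.exp (-(δ * x)) < |∑ ρ, (row b r n h ρ : ℝ) * α ρ - P| := by
  classical
  choose η hη x0 h using fun r => farFix hα hb k r A hδ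
  rcases isEmpty_or_nonempty (Fin k → R) with he | hne
  · exact ⟨1, one_pos, 0, fun x _ r => (he.false r).elim⟩
  · refine ⟨univ.inf' univ_nonempty η, (Finset.lt_inf'_iff _).2 fun r _ => hη r,
      max 0 (univ.sup' univ_nonempty x0), fun x hx r n h' P h1 h2 h3 => ?_⟩
    refine h r x ((le_sup' x0 (mem_univ r)).trans ((le_max_right _ _).trans hx)) n h' P h1
      (fun i => (h2 i).trans (Real.exp_le_exp.2 ?_)) h3
    exact mul_le_mul_of_nonneg_right (inf'_le _ (mem_univ r)) ((le_max_left _ _).trans hx)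

end Pool.Agent.T9h42.JA
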