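import Pool.Agent.T9h42.JA.RealT

/-!
# Tests on the words of real polynomials with algebraic leading coefficients
-/

set_option autoImplicit false
set_option linter.unusedSectionVars false

open Finset Filter Topology Real

namespace Pool.Agent.T9h42.JA

open MeasureTheory
open Pool.Agent.T9h42.JB
open Pool.Agent.Y933.KD
open Pool.Agent.H373R2.NB (Ph)
open Pool.Agent.W301.TD.AA (iw_unif)

variable {R : Type} [Fintype R] [DecidableEq R]

/-- no relations among the leading coefficients of the same degree -/
def Indep (α : R → ℝ) (K : R → ℕ) : Prop :=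
  ∀ (d : ℕ) (c : R → ℤ) (z : ℤ), ∑ ρ with K ρ = d, (c ρ : ℝ) * α ρ = z → ∀ ρ, K ρ = d → c ρ = 0

open Polynomial in
/-- **tests for polynomials** -/
theorem poly_tests {α : R → ℝ} (hα : ∀ ρ, IsAlgebraic ℚ (α ρ)) {K : R → ℕ} (hK : ∀ ρ, 1 ≤ K ρ)
    (hind : Indep α K) {b : R → ℕ} (hb : ∀ ρ, 1 ≤ b ρ) (A : ℝ) (k : ℕ) :
    ∃ κ : ℝ, 0 < κ ∧ ∃ C : ℝ, ∃ M0 : ℕ, ∀ M : ℕ, M0 ≤ M → ∀ f : R → ℝ[X],
      (∀ ρ, (f ρ).natDegree ≤ K ρ ∧ (f ρ).coeff (K ρ) = α ρ) → ∀ t L : R → ℕ,
      (∀ ρ, ((t ρ + L ρ : ℕ) : ℝ) ≤ A * log M) → ∀ (r : Fin k → R) (n w c : Fin k → ℕ),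
      (∀ i, n i < L (r i)) → ∀ (P : ℕ → Prop) [DecidablePred P],
      (∀ m, (P m ↔ ∀ i, wd (b (r i)) (w i) (t (r i) + n i) ((f (r i)).eval (m : ℝ)) = c i)) →
      |((((range M).filter P).card : ℕ) : ℝ) / M - (LebR R).real (WR b r n w c)| ≤
        C * (M : ℝ) ^ (-κ) := by
  classical
  obtain ⟨η, hη, x0, hfar⟩ := farA hα hb k A (δ := 1 / 2) (by norm_num)
  set Km : ℕ := ∑ ρ, K ρ with hKm
  have hKle : ∀ ρ, K ρ ≤ Km := fun ρ => single_le_sum (fun _ _ => Nat.zero_le _) (mem_univ ρ)
  obtain ⟨cI, mI, hcI, hI⟩ := iw_unif Km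
  have hcI1 : (1 : ℝ) ≤ cI := by exact_mod_cast hcI
  have hlc : 0 ≤ log (cI : ℝ) := Real.log_nonneg hcI1
  have hfac1 : (1 : ℝ) ≤ Km.factorial := by exact_mod_cast Nat.one_le_iff_ne_zero.2 (Nat.factorial_ne_zero _)
  have hlf : 0 ≤ log (Km.factorial : ℝ) := Real.log_nonneg hfac1
  have hm0 : (0 : ℝ) < (mI : ℝ) + 1 := by positivity
  set κ : ℝ := min (η / (2 * (mI + 1))) (1 / (4 * (mI + 1))) with hκ
  have hκ0 : 0 < κ := lt_min (by positivity) (by positivity)
  have hκ1 : κ * (mI + 1) ≤ η / 2 := by
    have h1 : κ ≤ η / (2 * (mI + 1)) := min_le_left _ _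
    rw [← div_div, le_div_iff₀ hm0] at h1
    exact h1
  have hκ2 : κ * (mI + 1) ≤ 1 / 4 := by
    have h1 : κ ≤ 1 / (4 * (mI + 1)) := min_le_right _ _
    rw [← div_div, le_div_iff₀ hm0] at h1
    exact h1
  have hlog : Tendsto (fun M : ℕ => log (M : ℝ)) atTop atTop :=
    Real.tendsto_log_atTop.comp tendsto_natCast_atTop_atTop
  obtain ⟨M0, hM0⟩ := eventually_atTop.1 ((hlog.eventually_ge_atTop x0).and
    ((eventually_ge_atTop 1).and ((hlog.eventually_ge_atTop (4 * log cI)).and
    (hlog.eventually_ge_atTop ((log cI + log Km.factorial) / (η / 2))))))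
  refine ⟨κ / (3 * k + 4), by positivity, 3 ^ k + k * 29, M0,
    fun M hM f hf t L htL r n w c hn P _ hP => ?_⟩
  obtain ⟨m1, m2, m3, m4⟩ := hM0 M hM
  rw [div_le_iff₀ (by positivity)] at m4
  have hMp : (0 : ℝ) < M := by exact_mod_cast m2
  have hM1 : (1 : ℝ) ≤ M := by exact_mod_cast m2
  have hlM : 0 ≤ log (M : ℝ) := Real.log_natCast_nonneg M
  have hcIe : (cI : ℝ) = exp (log cI) := (Real.exp_log (by linarith)).symm
  have hfe : (Km.factorial : ℝ) = exp (log Km.factorial) := (Real.exp_log (by linarith)).symm
  have key := real_test (τ := κ * log M) (by positivity) (T := range M)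
    ⟨0, mem_range.2 (by omega)⟩ (fun m ρ => (f ρ).eval (m : ℝ)) hb t r n w c
    (by
      intro h hh hne
      rw [card_range]
      set cc : R → ℤ := fun ρ => row b r (fun i => t (r i) + n i) h ρ with hcc
      have hne' : ∃ ρ, cc ρ ≠ 0 := by
        obtain ⟨ρ, hρ⟩ := hne
        refine ⟨ρ, ?_⟩
        rw [hcc]
        simp only
        rw [row_shift]
        refine mul_ne_zero (pow_ne_zero _ ?_) hρ
        have := hb ρ
        omega
      obtain ⟨ρ0, hρ0, hmax⟩ := Finset.exists_max_image (univ.filter fun ρ => cc ρ ≠ 0) K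
        (by obtain ⟨ρ, hρ⟩ := hne'; exact ⟨ρ, mem_filter.2 ⟨mem_univ _, hρ⟩⟩)
      rw [mem_filter] at hρ0
      set d : ℕ := K ρ0 with hd
      have hd1 : 1 ≤ d := hK ρ0
      have hdKm : d ≤ Km := hKle ρ0
      have hzero : ∀ ρ, d < K ρ → cc ρ = 0 := by
        intro ρ hρ
        by_contra h1
        have := hmax ρ (mem_filter.2 ⟨mem_univ _, h1⟩)
        omega
      set Q : ℝ[X] := ∑ ρ, C ((cc ρ : ℤ) : ℝ) * f ρ with hQ
      have hQd : Q.natDegree ≤ d := by
        rw [hQ]
        refine natDegree_sum_le_of_forall_le _ _ fun ρ _ => ?_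
        by_cases h1 : d < K ρ
        · rw [hzero ρ h1, Int.cast_zero, C_0, zero_mul, natDegree_zero]
          exact Nat.zero_le _
        · refine (natDegree_C_mul_le _ _).trans ((hf ρ).1.trans ?_)
          omega
      have hQc : Q.coeff d = ∑ ρ with K ρ = d, (cc ρ : ℝ) * α ρ := by
        rw [hQ, finsetSum_coeff, sum_filter]
        refine sum_congr rfl fun ρ _ => ?_
        rw [coeff_C_mul]
        split_ifs with h1
        · rw [← h1, (hf ρ).2]
        · by_cases h2 : d < K ρ
          · rw [hzero ρ h2, Int.cast_zero, zero_mul]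
          · rw [coeff_eq_zero_of_natDegree_lt, mul_zero]
            have := (hf ρ).1
            omega
      have hphase : ∀ m : ℕ, ∑ ρ, (cc ρ : ℝ) * (f ρ).eval (m : ℝ) = Q.eval (m : ℝ) := by
        intro m
        rw [hQ, eval_finsetSum]
        exact sum_congr rfl fun ρ _ => by rw [eval_mul, eval_C]
      have hPh := Ph_real d Q hQd
      by_contra hcon
      push Not at hcon
      set u : ℝ := exp (κ * log M) with hu
      have hu1 : 1 ≤ u := Real.one_le_exp (by positivity)
      have hu0 : 0 < u := by linarith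
      have hum : u ^ mI = exp (κ * mI * log M) := by
        rw [hu, ← Real.exp_nat_mul]
        congr 1
        ring
      have hS : (M : ℝ) ≤ u * ‖∑ m ∈ range M, Pool.Agent.Helper602.MK.ee (Q.eval (m : ℝ))‖ := by
        have e1 : ∑ m ∈ range M, e (∑ ρ, (row b r (fun i => t (r i) + n i) h ρ : ℝ) *
            (f ρ).eval (m : ℝ)) = ∑ m ∈ range M, Pool.Agent.Helper602.MK.ee (Q.eval (m : ℝ)) := by
          refine sum_congr rfl fun m _ => ?_
          rw [e_ee', ← hphase m]
        rw [e1] at hcon
        have h2 : exp (-(κ * log M)) = u⁻¹ := by rw [Real.exp_neg]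
        rw [h2, one_div, inv_mul_eq_div, lt_div_iff₀ hMp, inv_mul_lt_iff₀ hu0] at hcon
        exact hcon.le
      obtain ⟨q, hq1, hq2, a, ha⟩ := hI d hd1 hdKm M u _ _ m2 hu1 hPh hS
      have hq0 : (0 : ℝ) < q := by exact_mod_cast hq1
      -- the frequencies
      set h' : Fin k → ℤ := fun i => if K (r i) = d then (q : ℤ) * d.factorial * h i else 0 with hh'
      have hrow : ∀ ρ, row b r (fun i => t (r i) + n i) h' ρ =
          if K ρ = d then (q : ℤ) * d.factorial * cc ρ else 0 := by
        intro ρ
        rw [hcc]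
        simp only
        unfold row
        split_ifs with h1
        · rw [mul_sum]
          refine sum_congr rfl fun i _ => ?_
          split_ifs with h2
          · rw [hh']
            simp only
            rw [h2, if_pos h1]
            ring
          · rw [mul_zero]
        · refine sum_eq_zero fun i _ => ?_
          split_ifs with h2
          · rw [hh']
            simp only
            rw [h2, if_neg h1, zero_mul]
          · rfl
      have hsum : ∑ ρ, (row b r (fun i => t (r i) + n i) h' ρ : ℝ) * α ρ =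
          q * ((d.factorial : ℝ) * Q.coeff d) := by
        rw [hQc, sum_filter, mul_sum, mul_sum]
        refine sum_congr rfl fun ρ _ => ?_
        rw [hrow ρ]
        split_ifs with h1
        · push_cast
          ring
        · push_cast
          ring
      have hcu : (cI : ℝ) * u ^ mI = exp (log cI + κ * mI * log M) := by
        rw [hum, Real.exp_add, ← hcIe]
      have hdf : (d.factorial : ℝ) ≤ Km.factorial := by exact_mod_cast Nat.factorial_le hdKm
      have hh'le : ∀ i, |(h' i : ℝ)| ≤ exp (η * log M) := by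
        intro i
        rw [hh']
        simp only
        split_ifs with h1
        · push_cast
          rw [abs_mul, abs_mul, Nat.abs_cast, Nat.abs_cast]
          calc (q : ℝ) * d.factorial * |(h i : ℝ)| ≤
                (cI * u ^ mI) * Km.factorial * exp (κ * log M) := by
                gcongr
                exact hh i
            _ = exp (log cI + κ * mI * log M + log Km.factorial + κ * log M) := by
                rw [hcu, Real.exp_add (log cI + κ * mI * log M + log (Km.factorial : ℝ)),
                  Real.exp_add (log cI + κ * mI * log M), ← hfe]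
            _ ≤ exp (η * log M) := by
                apply exp_le_exp.2
                have h5 : κ * (mI + 1) * log M ≤ η / 2 * log M :=
                  mul_le_mul_of_nonneg_right hκ1 hlM
                nlinarith
        · rw [Int.cast_zero, abs_zero]
          exact (exp_pos _).le
      by_cases hint : ∑ ρ, (row b r (fun i => t (r i) + n i) h' ρ : ℝ) * α ρ = a
      · have h5 := hind d (fun ρ => (q : ℤ) * d.factorial * cc ρ) a (by
          rw [← hint, sum_filter]
          refine sum_congr rfl fun ρ _ => ?_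
          rw [hrow ρ]
          split_ifs
          · push_cast
            ring
          · push_cast
            ring) ρ0 rfl
        have hq0' : (q : ℤ) ≠ 0 := by
          have : q ≠ 0 := by omega
          exact_mod_cast this
        have hf0 : (d.factorial : ℤ) ≠ 0 := by exact_mod_cast Nat.factorial_ne_zero d
        exact mul_ne_zero (mul_ne_zero hq0' hf0) hρ0.2 h5
      · have h5 := hfar (log M) m1 r (fun i => t (r i) + n i) h' a (fun i => by
          refine le_trans ?_ (htL (r i))
          have := hn i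
          exact_mod_cast (by omega : t (r i) + n i ≤ t (r i) + L (r i))) hh'le hint
        rw [hsum] at h5
        have h6 : cI * u ^ mI / (M : ℝ) ^ d ≤ exp (-(1 / 2 * log M)) := by
          have h7 : exp (log M) ≤ (M : ℝ) ^ d := by
            rw [Real.exp_log hMp]
            exact le_self_pow₀ hM1 (by omega)
          calc cI * u ^ mI / (M : ℝ) ^ d ≤ exp (log cI + κ * mI * log M) / exp (log M) := by
                rw [hcu]
                gcongr
            _ = exp (log cI + κ * mI * log M - log M) := (Real.exp_sub _ _).symm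
            _ ≤ _ := by
                apply exp_le_exp.2
                have h8 : κ * (mI + 1) * log M ≤ 1 / 4 * log M := mul_le_mul_of_nonneg_right hκ2 hlM
                have h9 : 0 ≤ κ * log M := by positivity
                nlinarith
        linarith)
    P (fun m _ => hP m)
  rw [card_range] at key
  refine key.trans (le_of_eq ?_)
  congr 1
  rw [Real.rpow_def_of_pos hMp]
  congr 1
  ring

end Pool.Agent.T9h42.JA
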