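import Pool.Agent.T9h42.JA.FarA
import Pool.Agent.T9h42.JB.FamT
import Pool.Agent.T9h42.JB.Mom
import Pool.Agent.W301.TD.Expo

/-!
# Tests on the words of real polynomials in several bases
-/

set_option autoImplicit false
set_option linter.unusedSectionVars false

open Finset Filter Topology Real

namespace Pool.Agent.T9h42.JA

open MeasureTheory
open Pool.Agent.T9h42.JB
open Pool.Agent.Y933.KD
open Pool.Agent.H373R2.NB (Ph)

variable {R : Type} [Fintype R] [DecidableEq R]

lemma e_ee' (x : ℝ) : e x = Pool.Agent.Helper602.MK.ee x := by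
  unfold e Pool.Agent.Helper602.MK.ee
  push_cast
  rfl

lemma row_shift {k : ℕ} (b t : R → ℕ) (r : Fin k → R) (n : Fin k → ℕ) (h : Fin k → ℤ) (ρ : R) :
    row b r (fun i => t (r i) + n i) h ρ = (b ρ : ℤ) ^ t ρ * row b r n h ρ := by
  unfold row
  rw [mul_sum]
  refine sum_congr rfl fun i _ => ?_
  split_ifs with hi
  · change h i * (b ρ : ℤ) ^ (t (r i) + n i) = _
    rw [hi, pow_add]
    ring
  · rw [mul_zero]

open Classical in
lemma prod_ind_wd {k : ℕ} {b w n c : Fin k → ℕ} (hb : ∀ i, 1 ≤ b i) (x : Fin k → ℝ) :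
    ∏ i, ind ((c i : ℝ) / (b i : ℝ) ^ w i) (((c i : ℝ) + 1) / (b i : ℝ) ^ w i)
      ((b i : ℝ) ^ n i * x i) = if ∀ i, wd (b i) (w i) (n i) (x i) = c i then 1 else 0 := by
  by_cases hx : ∀ i, wd (b i) (w i) (n i) (x i) = c i
  · rw [if_pos hx]
    refine prod_eq_one fun i _ => ?_
    unfold ind
    rw [if_pos]
    exact (wd_eq_iff (hb _) _).1 (hx i)
  · rw [if_neg hx]
    push Not at hx
    obtain ⟨i, hi⟩ := hx
    refine prod_eq_zero (mem_univ i) ?_
    unfold ind
    rw [if_neg]
    rw [Ne, wd_eq_iff (hb _)] at hi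
    exact hi

/-- words of the members of a family of real vectors -/
theorem real_test {k : ℕ} {τ : ℝ} (hτ : 0 ≤ τ) {T : Finset ℕ} (hT : T.Nonempty) (X : ℕ → R → ℝ)
    {b : R → ℕ} (hb : ∀ ρ, 1 ≤ b ρ) (t : R → ℕ) (r : Fin k → R) (n w c : Fin k → ℕ)
    (hF : ∀ h : Fin k → ℤ, (∀ i, |(h i : ℝ)| ≤ exp τ) → (∃ ρ, row b r n h ρ ≠ 0) →
      1 / T.card * ‖∑ m ∈ T, e (∑ ρ, (row b r (fun i => t (r i) + n i) h ρ : ℝ) * X m ρ)‖ ≤
        exp (-τ))
    (p : ℕ → Prop) [DecidablePred p]
    (hp : ∀ m ∈ T, (p m ↔ ∀ i, wd (b (r i)) (w i) (t (r i) + n i) (X m (r i)) = c i)) :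
    |((T.filter p).card : ℝ) / T.card - (LebR R).real (WR b r n w c)| ≤
      (3 ^ k + k * 29) * exp (-(τ / (3 * k + 4))) := by
  classical
  have hprob := UT_prob hT
  have hT0 : (T.card : ℂ) ≠ 0 := by exact_mod_cast (Finset.card_pos.2 hT).ne'
  set Y : Fin k → ℕ → ℝ := fun i m => (b (r i) : ℝ) ^ (t (r i) + n i) * X m (r i) with hY
  have e1 : ((T.filter p).card : ℝ) / T.card = ∫ m, ∏ i, ind ((c i : ℝ) / (b (r i) : ℝ) ^ w i)
      (((c i : ℝ) + 1) / (b (r i) : ℝ) ^ w i) (Y i m) ∂(UT T) := by
    rw [int_UT, smul_eq_mul, div_eq_inv_mul]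
    congr 1
    rw [card_filter]
    push_cast
    refine sum_congr rfl fun m hm => ?_
    have h1 := prod_ind_wd (b := fun i => b (r i)) (w := w) (n := fun i => t (r i) + n i) (c := c)
      (fun i => hb (r i)) (fun i => X m (r i))
    rw [hY]
    refine Eq.trans ?_ h1.symm
    by_cases h2 : p m
    · rw [if_pos h2, if_pos ((hp m hm).1 h2)]
    · rw [if_neg h2, if_neg (fun h3 => h2 ((hp m hm).2 h3))]
  rw [e1]
  have hhv : ∀ h : Fin k → ℤ, hv (UT T) Y h = (T.card : ℝ)⁻¹ •
      ∑ m ∈ T, e (∑ ρ, (row b r (fun i => t (r i) + n i) h ρ : ℝ) * X m ρ) := by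
    intro h
    unfold hv
    rw [int_UT]
    congr 1
    refine sum_congr rfl fun m _ => ?_
    congr 1
    exact row_sum b r (fun i => t (r i) + n i) h (X m)
  by_cases hc : ∀ i, c i < b (r i) ^ w i
  · have key := test_exp hτ (UT T) (LebR R) (Y := Y) (Z := Yc b r n) (fun i => measurable_of_countable _)
      (fun i => measurable_Yc b r n i) (fun i h hh => int_single_Leb hb r n i h hh)
      (fun h hh => by
        by_cases h0 : ∀ ρ, row b r n h ρ = 0
        · rw [hhv, hv_LebR, if_pos h0]
          have h1 : ∀ ρ, row b r (fun i => t (r i) + n i) h ρ = 0 := fun ρ => by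
            rw [row_shift, h0 ρ, mul_zero]
          simp only [h1, Int.cast_zero, zero_mul, sum_const_zero, e_zero, sum_const, nsmul_eq_mul,
            mul_one]
          rw [Complex.real_smul]
          push_cast
          rw [inv_mul_cancel₀ hT0, sub_self, norm_zero]
          exact (exp_pos _).le
        · rw [hhv, hv_LebR, if_neg h0, sub_zero, norm_smul, norm_inv, Real.norm_natCast, ← one_div]
          push Not at h0
          exact hF h hh h0)
      (fun i => (c i : ℝ) / (b (r i) : ℝ) ^ w i)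
      (fun i => ((c i : ℝ) + 1) / (b (r i) : ℝ) ^ w i) (fun i => by positivity)
      (fun i => by
        have h1 : (0 : ℝ) < (b (r i) : ℝ) ^ w i := by
          have : (0 : ℝ) < b (r i) := by exact_mod_cast hb (r i)
          positivity
        rw [div_le_one h1]
        exact_mod_cast hc i)
    rw [int_ind_WR hb r n w c] at key
    exact key
  · push Not at hc
    obtain ⟨i, hi⟩ := hc
    rw [WR_empty hb hi]
    have h0 : ∀ m : ℕ, ∏ i, ind ((c i : ℝ) / (b (r i) : ℝ) ^ w i)
        (((c i : ℝ) + 1) / (b (r i) : ℝ) ^ w i) (Y i m) = 0 := by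
      intro m
      have h1 := prod_ind_wd (b := fun i => b (r i)) (w := w) (n := fun i => t (r i) + n i) (c := c)
        (fun i => hb (r i)) (fun i => X m (r i))
      rw [hY]
      refine h1.trans (if_neg fun h2 => ?_)
      have h3 := h2 i
      have h4 := wd_lt (hb (r i)) (w i) (t (r i) + n i) (X m (r i))
      omega
    simp only [h0, integral_zero, measureReal_empty, sub_self, abs_zero]
    positivity

open Polynomial in
/-- differences of real polynomials -/
lemma Ph_real (d : ℕ) : ∀ f : ℝ[X], f.natDegree ≤ d →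
    Ph d ((d.factorial : ℝ) * f.coeff d) (fun n => f.eval (n : ℝ)) := by
  induction d with
  | zero =>
    intro f hf n
    have h1 : f = C (f.coeff 0) := eq_C_of_natDegree_le_zero hf
    have h2 : f.eval (n : ℝ) = f.coeff 0 := by
      conv_lhs => rw [h1]
      rw [eval_C]
    change f.eval (n : ℝ) = _
    rw [h2]; simp
  | succ d ih =>
    intro f hf h
    set g : ℝ[X] := taylor (h : ℝ) f - f with hg
    have hcoef : ∀ j, d ≤ j → (taylor (h : ℝ) f).coeff j =
        f.coeff j + (if j = d then ((d : ℝ) + 1) * f.coeff (d + 1) * h else 0) := by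
      intro j hj
      rw [taylor_coeff]
      have h1 : (hasseDeriv j f).natDegree < 2 := by
        have := natDegree_hasseDeriv_le f j
        omega
      rw [eval_eq_sum_range' h1, sum_range_succ, sum_range_succ, sum_range_zero, hasseDeriv_coeff,
        hasseDeriv_coeff]
      rcases eq_or_ne j d with h2 | h2
      · subst h2
        rw [if_pos rfl, zero_add, zero_add, Nat.choose_self, add_comm 1 j,
          Nat.choose_succ_self_right]
        push_cast
        ring
      · rw [if_neg h2]
        have h3 : f.coeff (1 + j) = 0 := coeff_eq_zero_of_natDegree_lt (by omega)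
        rw [h3, zero_add, zero_add, Nat.choose_self]
        push_cast
        ring
    have hgd : g.natDegree ≤ d := by
      rw [natDegree_le_iff_coeff_eq_zero]
      intro j hj
      rw [hg, coeff_sub, hcoef j (by omega), if_neg (by omega)]
      ring
    have hgc : g.coeff d = ((d : ℝ) + 1) * f.coeff (d + 1) * h := by
      rw [hg, coeff_sub, hcoef d le_rfl, if_pos rfl]; ring
    have h1 := ih g hgd
    have h2 : (fun n : ℕ => g.eval (n : ℝ)) = fun n : ℕ =>
        f.eval (((n + h : ℕ) : ℝ)) - f.eval (n : ℝ) := by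
      funext n
      rw [hg, eval_sub, taylor_eval]
      push_cast
      ring
    have h3 : (d.factorial : ℝ) * g.coeff d = (h : ℝ) * (((d + 1).factorial : ℝ) * f.coeff (d + 1)) := by
      rw [hgc, Nat.factorial_succ]; push_cast; ring
    rw [h2, h3] at h1
    exact h1

end Pool.Agent.T9h42.JA
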