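import Pool.Agent.T9h42.JB.Far

/-!
# Sums of almost units with algebraic coefficients are not close to integers
-/

set_option autoImplicit false
set_option linter.unusedSectionVars false

open Finset Filter Topology

namespace Pool.Agent.T9h42.JA

open Pool.Agent.T9h42.JB (mo mo_pos)
open Pool.Agent.TH419.WI (mon mon_pos rel)

variable {O : Type} [CommRing O] [IsDomain O] [CharZero O] [Module.Free ℤ O] [Module.Finite ℤ O]

/-- a small value of a linear form in almost-units gives a linear relation infinitely often -/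
theorem relO (φ : O →+* ℂ) (hreal : ∀ x, (φ x).im = 0) {V I : Type} [Fintype V] [Fintype I]
    (g : V → ℕ) (hg : ∀ v, 0 < g v) (i0 : I)
    (v : I → O) (hv : v i0 ≠ 0) (C δ : ℝ) (hC : 0 ≤ C) (hδ : 0 < δ) (L : ℕ → ℝ)
    (hL : Tendsto L atTop atTop) (e : ℕ → I → V → ℕ) (z : ℕ → I → ℤ)
    (h1 : ∀ᶠ t in atTop, ∀ l, ((mo g (e t l) : ℤ) : ℝ) ≤ Real.exp (C * L t))
    (h2 : ∀ ε : ℝ, 0 < ε → ∀ᶠ t in atTop, ∀ l, l ≠ i0 → |(z t l : ℝ)| ≤ Real.exp (ε * L t))
    (h3 : ∀ᶠ t in atTop, z t ≠ 0)
    (h4 : ∀ᶠ t in atTop, ‖φ (∑ l, v l * ((mo g (e t l) * z t l : ℤ) : O))‖ ≤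
      ((mo g (e t i0) : ℤ) : ℝ) * Real.exp (-(δ * L t))) :
    ∃ y : I → ℤ, y ≠ 0 ∧ ∃ᶠ t in atTop, ∑ l, y l * (mo g (e t l) * z t l) = 0 := by
  classical
  set σ := Fintype.equivFin V with hσ
  set τ := Fintype.equivFin I with hτ
  have hmo : ∀ t l, mon (fun v => g (σ.symm v)) (fun v => e t l (σ.symm v)) = mo g (e t l) := by
    intro t l
    unfold mon mo
    exact Equiv.prod_comp σ.symm (fun v => (g v : ℤ) ^ e t l v)
  obtain ⟨y, hy, hfr⟩ := rel O φ hreal (fun v => g (σ.symm v))
    (fun v => hg _) (τ i0) (fun l => v (τ.symm l)) (by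
      simp only [Equiv.symm_apply_apply]; exact hv) C δ hC hδ L hL
    (fun t l v => e t (τ.symm l) (σ.symm v)) (fun t l => z t (τ.symm l))
    (by
      filter_upwards [h1] with t ht l
      rw [hmo]
      exact ht _)
    (by
      intro ε hε
      filter_upwards [h2 ε hε] with t ht l hl
      refine ht _ fun h => hl ?_
      rw [← h, Equiv.apply_symm_apply])
    (by
      filter_upwards [h3] with t ht h
      apply ht
      funext l
      have := congrFun h (τ l)
      simpa using this)
    (by
      filter_upwards [h4] with t ht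
      rw [hmo, Equiv.symm_apply_apply]
      refine le_trans (le_of_eq ?_) ht
      have h5 : ∑ l, v (τ.symm l) * ((mon (fun v => g (σ.symm v))
          (fun v => e t (τ.symm l) (σ.symm v)) * z t (τ.symm l) : ℤ) : O) =
          ∑ l, v l * ((mo g (e t l) * z t l : ℤ) : O) := by
        simp only [hmo]
        exact Equiv.sum_comp τ.symm (fun l => v l * ((mo g (e t l) * z t l : ℤ) : O))
      rw [h5])
  refine ⟨fun l => y (τ l), ?_, hfr.mono fun t ht => ?_⟩
  · intro h
    apply hy
    funext l
    have := congrFun h (τ.symm l)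
    simpa using this
  · simp only [hmo] at ht
    rw [← ht, ← Equiv.sum_comp τ.symm]
    simp

/-- the induction on the number of terms -/
theorem fin_relO (φ : O →+* ℂ) (hreal : ∀ x, (φ x).im = 0) (hinj : Function.Injective φ)
    {V : Type} [Fintype V] (g : V → ℕ) (hg : ∀ v, 0 < g v) (C : ℝ) (hC : 0 ≤ C) :
    ∀ (n : ℕ) (I : Type) [Fintype I], Fintype.card I = n →
    ∀ (δ : ℝ), 0 < δ → ∀ (L : ℕ → ℝ), Tendsto L atTop atTop →
    ∀ (E : ℕ → I → V → ℕ) (F : ℕ → V → ℕ) (h : ℕ → I → ℤ) (P : ℕ → ℤ) (v : I → O) (v0 : O),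
    v0 ≠ 0 → (∀ t l, ((mo g (E t l) : ℤ) : ℝ) ≤ Real.exp (C * L t)) →
    (∀ t, ((mo g (F t) : ℤ) : ℝ) ≤ Real.exp (C * L t)) →
    (∀ t l, mo g (F t) ≤ mo g (E t l)) →
    (∀ ε : ℝ, 0 < ε → ∀ᶠ t in atTop, ∀ l, |(h t l : ℝ)| ≤ Real.exp (ε * L t)) →
    (∀ t, ‖φ (∑ l, v l * ((mo g (E t l) * h t l : ℤ) : O) - v0 * ((mo g (F t) * P t : ℤ) : O))‖ ≤
      ((mo g (F t) : ℤ) : ℝ) * Real.exp (-(δ * L t))) →
    (∀ t, ∑ l, v l * ((mo g (E t l) * h t l : ℤ) : O) - v0 * ((mo g (F t) * P t : ℤ) : O) ≠ 0) →
    False := by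
  intro n
  induction n with
  | zero =>
    intro I _ hI δ hδ L hL E F h P v v0 hv0 hE hF hEF hh hsmall hne
    have hemp : IsEmpty I := Fintype.card_eq_zero_iff.1 hI
    have hφ0 : 0 < ‖φ v0‖ := norm_pos_iff.2 fun h0 => hv0 (hinj (by rw [h0, map_zero]))
    obtain ⟨t, ht⟩ := (hL.eventually_gt_atTop (-(Real.log ‖φ v0‖) / δ)).exists
    have h1 := hsmall t
    have h2 := hne t
    rw [Finset.univ_eq_empty, Finset.sum_empty, zero_sub] at h1 h2
    have hF0 : (0 : ℝ) < ((mo g (F t) : ℤ) : ℝ) := by exact_mod_cast mo_pos hg (F t)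
    have hP : P t ≠ 0 := by
      intro h0
      apply h2
      rw [h0, mul_zero, Int.cast_zero, mul_zero, neg_zero]
    have h3 : (1 : ℝ) ≤ |((P t : ℤ) : ℝ)| := by exact_mod_cast Int.one_le_abs hP
    rw [map_neg, norm_neg, map_mul, norm_mul, map_intCast, Complex.norm_intCast] at h1
    push_cast at h1
    rw [abs_mul, abs_of_pos hF0] at h1
    have h5 : Real.exp (-(δ * L t)) < ‖φ v0‖ := by
      rw [← Real.lt_log_iff_exp_lt hφ0]
      rw [div_lt_iff₀ hδ] at ht
      linarith
    have h6 : ((mo g (F t) : ℤ) : ℝ) * ‖φ v0‖ ≤ ((mo g (F t) : ℤ) : ℝ) * Real.exp (-(δ * L t)) := by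
      refine le_trans ?_ h1
      have h7 : (0 : ℝ) ≤ ‖φ v0‖ * ((mo g (F t) : ℤ) : ℝ) := by positivity
      nlinarith
    have h8 := le_of_mul_le_mul_left h6 hF0
    linarith
  | succ n ih =>
    intro I _ hI δ hδ L hL E F h P v v0 hv0 hE hF hEF hh hsmall hne
    classical
    -- first relation
    have hFpos : ∀ t, (0 : ℝ) < ((mo g (F t) : ℤ) : ℝ) := fun t => by
      exact_mod_cast mo_pos hg (F t)
    have key : ∃ y : I → ℤ, y ≠ 0 ∧ ∃ᶠ t in atTop, ∑ l, y l * (mo g (E t l) * h t l) = 0 := by
      obtain ⟨y, hy, hfr⟩ := relO φ hreal (I := Option I) g hg none (fun o => o.elim (-v0) v)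
        (by simpa using hv0) C δ hC hδ L hL (fun t o => o.elim (F t) (E t))
        (fun t o => o.elim (P t) (h t))
        (Eventually.of_forall fun t l => by
          cases l with
          | none => exact hF t
          | some l => exact hE t l)
        (by
          intro ε hε
          filter_upwards [hh ε hε] with t ht l hl
          cases l with
          | none => exact absurd rfl hl
          | some l => exact ht l)
        (Eventually.of_forall fun t h0 => by
          apply hne t
          have h1 : P t = 0 := congrFun h0 none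
          have h2 : ∀ l, h t l = 0 := fun l => congrFun h0 (some l)
          rw [h1]
          simp [h2])
        (Eventually.of_forall fun t => by
          rw [Fintype.sum_option]
          refine le_trans (le_of_eq ?_) (hsmall t)
          congr 2
          simp only [Option.elim]
          ring)
      by_cases hy0 : y none = 0
      · refine ⟨fun l => y (some l), ?_, hfr.mono fun t ht => ?_⟩
        · intro h0
          apply hy
          funext o
          cases o with
          | none => exact hy0
          | some l => exact congrFun h0 l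
        · rw [Fintype.sum_option, hy0, zero_mul, zero_add] at ht
          exact ht
      · -- the form in the units alone
        obtain ⟨ψ, hψ, hψr⟩ := extraction_of_frequently_atTop hfr
        set u : I → O := fun l => (y none : O) * v l + v0 * (y (some l) : O) with hu
        have hform : ∀ t, ∑ l, u l * ((mo g (E (ψ t) l) * h (ψ t) l : ℤ) : O) =
            (y none : O) * (∑ l, v l * ((mo g (E (ψ t) l) * h (ψ t) l : ℤ) : O) -
              v0 * ((mo g (F (ψ t)) * P (ψ t) : ℤ) : O)) := by
          intro t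
          have h1 := hψr t
          rw [Fintype.sum_option] at h1
          simp only [Option.elim] at h1
          have h1' : (y none : O) * ((mo g (F (ψ t)) * P (ψ t) : ℤ) : O) +
              ∑ l, (y (some l) : O) * ((mo g (E (ψ t) l) * h (ψ t) l : ℤ) : O) = 0 := by
            exact_mod_cast congrArg (Int.cast : ℤ → O) h1
          have h2 : ∑ l, u l * ((mo g (E (ψ t) l) * h (ψ t) l : ℤ) : O) =
              (y none : O) * ∑ l, v l * ((mo g (E (ψ t) l) * h (ψ t) l : ℤ) : O) +
              v0 * ∑ l, (y (some l) : O) * ((mo g (E (ψ t) l) * h (ψ t) l : ℤ) : O) := by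
            rw [mul_sum, mul_sum, ← sum_add_distrib]
            refine sum_congr rfl fun l _ => ?_
            rw [hu]
            ring
          rw [h2]
          linear_combination v0 * h1'
        have hy0' : (y none : O) ≠ 0 := by exact_mod_cast hy0
        obtain ⟨l0, hl0⟩ : ∃ l, u l ≠ 0 := by
          by_contra hcon
          push Not at hcon
          have h1 := hform 0
          simp only [hcon, zero_mul, sum_const_zero] at h1
          rcases mul_eq_zero.1 h1.symm with h2 | h2
          · exact hy0' h2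
          · exact hne _ h2
        have hLψ : Tendsto (fun t => L (ψ t)) atTop atTop := hL.comp hψ.tendsto_atTop
        obtain ⟨y', hy', hfr'⟩ := relO φ hreal (I := I) g hg l0 u hl0 C (δ / 2) hC (by positivity)
          (fun t => L (ψ t)) hLψ (fun t => E (ψ t)) (fun t => h (ψ t))
          (Eventually.of_forall fun t l => hE _ l)
          (by
            intro ε hε
            filter_upwards [hψ.tendsto_atTop.eventually (hh ε hε)] with t ht l _
            exact ht l)
          (Eventually.of_forall fun t h0 => by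
            have h1 := hform t
            have h2 : ∀ l, h (ψ t) l = 0 := fun l => congrFun h0 l
            simp only [h2, mul_zero, Int.cast_zero, sum_const_zero] at h1
            rcases mul_eq_zero.1 h1.symm with h3 | h3
            · exact hy0' h3
            · apply hne (ψ t)
              simp only [h2, mul_zero, Int.cast_zero, sum_const_zero]
              exact h3)
          (by
            have h5 : ∀ᶠ t in atTop, Real.log |(y none : ℝ)| / (δ / 2) ≤ L (ψ t) :=
              hLψ.eventually_ge_atTop _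
            filter_upwards [h5] with t ht
            rw [hform t]
            have h6 := hsmall (ψ t)
            have h7 : (0 : ℝ) < |(y none : ℝ)| := abs_pos.2 (by exact_mod_cast hy0)
            have h8 : |(y none : ℝ)| ≤ Real.exp (δ / 2 * L (ψ t)) := by
              rw [div_le_iff₀ (by positivity)] at ht
              calc |(y none : ℝ)| = Real.exp (Real.log |(y none : ℝ)|) := (Real.exp_log h7).symm
                _ ≤ _ := Real.exp_le_exp.2 (by linarith)
            have h9 : ((mo g (F (ψ t)) : ℤ) : ℝ) ≤ ((mo g (E (ψ t) l0) : ℤ) : ℝ) := by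
              exact_mod_cast hEF (ψ t) l0
            rw [map_mul, norm_mul, map_intCast, Complex.norm_intCast]
            calc |(y none : ℝ)| * _ ≤ Real.exp (δ / 2 * L (ψ t)) *
                  (((mo g (F (ψ t)) : ℤ) : ℝ) * Real.exp (-(δ * L (ψ t)))) := by gcongr
              _ = ((mo g (F (ψ t)) : ℤ) : ℝ) * Real.exp (-(δ / 2 * L (ψ t))) := by
                  rw [mul_left_comm, ← Real.exp_add]
                  congr 2
                  ring
              _ ≤ _ := by gcongr)
        exact ⟨y', hy', hψ.tendsto_atTop.frequently hfr'⟩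
    obtain ⟨y, hy, hfr⟩ := key
    obtain ⟨l1, hl1⟩ : ∃ l, y l ≠ 0 := by
      by_contra hcon
      push Not at hcon
      exact hy (funext hcon)
    have hl1' : (y l1 : O) ≠ 0 := by exact_mod_cast hl1
    have h5 : ∀ᶠ t in atTop, Real.log |(y l1 : ℝ)| / (δ / 2) ≤ L t := hL.eventually_ge_atTop _
    obtain ⟨ψ, hψ, hψr⟩ := extraction_of_frequently_atTop (hfr.and_eventually h5)
    have hLψ : Tendsto (fun t => L (ψ t)) atTop atTop := hL.comp hψ.tendsto_atTop
    set v' : {l : I // l ≠ l1} → O := fun l => (y l1 : O) * v l - v l1 * (y l : O) with hv'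
    have hform : ∀ t, ∑ l : {l : I // l ≠ l1}, v' l * ((mo g (E (ψ t) l) * h (ψ t) l : ℤ) : O) -
        ((y l1 : O) * v0) * ((mo g (F (ψ t)) * P (ψ t) : ℤ) : O) =
        (y l1 : O) * (∑ l, v l * ((mo g (E (ψ t) l) * h (ψ t) l : ℤ) : O) -
          v0 * ((mo g (F (ψ t)) * P (ψ t) : ℤ) : O)) := by
      intro t
      have h1 := (hψr t).1
      have h1' : ∑ l, (y l : O) * ((mo g (E (ψ t) l) * h (ψ t) l : ℤ) : O) = 0 := by
        exact_mod_cast congrArg (Int.cast : ℤ → O) h1
      have h2 : ∑ l, ((y l1 : O) * v l - v l1 * (y l : O)) * ((mo g (E (ψ t) l) * h (ψ t) l : ℤ) : O) =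
          (y l1 : O) * ∑ l, v l * ((mo g (E (ψ t) l) * h (ψ t) l : ℤ) : O) := by
        have h3 : ∑ l, ((y l1 : O) * v l - v l1 * (y l : O)) *
            ((mo g (E (ψ t) l) * h (ψ t) l : ℤ) : O) =
            (y l1 : O) * ∑ l, v l * ((mo g (E (ψ t) l) * h (ψ t) l : ℤ) : O) -
            v l1 * ∑ l, (y l : O) * ((mo g (E (ψ t) l) * h (ψ t) l : ℤ) : O) := by
          rw [mul_sum, mul_sum, ← sum_sub_distrib]
          exact sum_congr rfl fun l _ => by ring
        rw [h3, h1']
        ring
      have h4 : ∑ l : {l : I // l ≠ l1}, v' l * ((mo g (E (ψ t) l) * h (ψ t) l : ℤ) : O) =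
          ∑ l, ((y l1 : O) * v l - v l1 * (y l : O)) * ((mo g (E (ψ t) l) * h (ψ t) l : ℤ) : O) := by
        have h6 : ∑ l ∈ Finset.univ.filter (fun l => l ≠ l1),
            ((y l1 : O) * v l - v l1 * (y l : O)) * ((mo g (E (ψ t) l) * h (ψ t) l : ℤ) : O) =
            ∑ l : {l : I // l ≠ l1}, ((y l1 : O) * v l - v l1 * (y l : O)) *
              ((mo g (E (ψ t) l) * h (ψ t) l : ℤ) : O) :=
          Finset.sum_subtype (Finset.univ.filter fun l => l ≠ l1) (p := fun l => l ≠ l1)
          (by simp) (fun l => ((y l1 : O) * v l - v l1 * (y l : O)) *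
            ((mo g (E (ψ t) l) * h (ψ t) l : ℤ) : O))
        refine h6.symm.trans ?_
        rw [Finset.sum_filter]
        refine sum_congr rfl fun l _ => ?_
        split_ifs with hl
        · rfl
        · push Not at hl
          subst hl
          ring
      rw [h4, h2]
      ring
    refine ih {l : I // l ≠ l1} ?_ (δ / 2) (by positivity) (fun t => L (ψ t)) hLψ
      (fun t l => E (ψ t) l) (fun t => F (ψ t)) (fun t l => h (ψ t) l) (fun t => P (ψ t)) v'
      ((y l1 : O) * v0) (mul_ne_zero hl1' hv0) (fun t l => hE _ _) (fun t => hF _)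
      (fun t l => hEF _ _) ?_ ?_ ?_
    · rw [Fintype.card_subtype_compl, hI, Fintype.card_subtype_eq]
      omega
    · intro ε hε
      filter_upwards [hψ.tendsto_atTop.eventually (hh ε hε)] with t ht l
      exact ht l
    · intro t
      rw [hform t]
      have h6 := hsmall (ψ t)
      have h7 : (0 : ℝ) < |(y l1 : ℝ)| := abs_pos.2 (by exact_mod_cast hl1)
      have h8 : |(y l1 : ℝ)| ≤ Real.exp (δ / 2 * L (ψ t)) := by
        have ht := (hψr t).2
        rw [div_le_iff₀ (by positivity)] at ht
        calc |(y l1 : ℝ)| = Real.exp (Real.log |(y l1 : ℝ)|) := (Real.exp_log h7).symm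
          _ ≤ _ := Real.exp_le_exp.2 (by linarith)
      rw [map_mul, norm_mul, map_intCast, Complex.norm_intCast]
      calc |(y l1 : ℝ)| * _ ≤ Real.exp (δ / 2 * L (ψ t)) *
            (((mo g (F (ψ t)) : ℤ) : ℝ) * Real.exp (-(δ * L (ψ t)))) := by gcongr
        _ = ((mo g (F (ψ t)) : ℤ) : ℝ) * Real.exp (-(δ / 2 * L (ψ t))) := by
            rw [mul_left_comm, ← Real.exp_add]
            congr 2
            ring
    · intro t
      rw [hform t]
      exact mul_ne_zero hl1' (hne _)

end Pool.Agent.T9h42.JA
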