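import Pool.Agent.T9h42.JA.PolyT
import Pool.Agent.T9h42.JB.Unif

/-!
# The joint central limit theorem for real polynomials
-/

set_option autoImplicit false
set_option linter.unusedSectionVars false

namespace Pool.Agent.T9h42.JA

open Finset Real MeasureTheory Filter Topology ProbabilityTheory
open Pool.Agent.T9h42.JB
open Pool.Agent.Y933.KD

variable {R : Type} [Fintype R] [DecidableEq R]

open Classical in
/-- the joint law from the tests -/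
theorem joint_unifD (b w : R → ℕ) (F : R → ℕ → ℝ) (hb : ∀ ρ, 1 ≤ b ρ) (hw : ∀ ρ, 1 ≤ w ρ)
    (hσ : ∀ ρ, 0 < vr (b ρ) (w ρ) (F ρ)) (a : R → ℝ) {ε : ℝ} (hε : 0 < ε) (A : ℝ)
    (S : ℕ → Finset ℕ → (ℕ → R → ℕ → ℕ) → (R → ℕ) → Prop)
    (hS1 : ∀ M T D L, S M T D L → T.Nonempty ∧ (∀ ρ, (L ρ : ℝ) ≤ A * log M) ∧
      ∀ m ρ n, D m ρ n < b ρ ^ w ρ)
    (hS2 : ∀ j : ℕ, ∃ κ : ℝ, 0 < κ ∧ ∃ C : ℝ, ∃ M0 : ℕ, ∀ M : ℕ, M0 ≤ M → ∀ T D L,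
      S M T D L → ∀ (r : Fin j → R) (n c : Fin j → ℕ), (∀ i, n i < L (r i)) →
      |((T.filter fun m => ∀ i, D m (r i) (n i) = c i).card : ℝ) / T.card -
        (LebR R).real (WR b r n (fun i => w (r i)) c)| ≤ C * (M : ℝ) ^ (-κ)) :
    ∃ L₀ M₀ : ℕ, ∀ M : ℕ, M₀ ≤ M → ∀ T D L, S M T D L → (∀ ρ, L₀ ≤ L ρ) →
      |((T.filter fun m => ∀ ρ, ∑ n ∈ range (L ρ), F ρ (D m ρ n) -
        L ρ * mn (b ρ) (w ρ) (F ρ) ≤ a ρ * √(vr (b ρ) (w ρ) (F ρ) * L ρ)).card : ℝ) / T.card -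
        ∏ ρ, Phi (a ρ)| ≤ ε := by
  by_contra hcon
  push Not at hcon
  have hc : ∀ k : ℕ, ∃ M : ℕ, k ≤ M ∧ ∃ (T : Finset ℕ) (D : ℕ → R → ℕ → ℕ) (L : R → ℕ),
      S M T D L ∧ (∀ ρ, k ≤ L ρ) ∧
      ε < |((T.filter fun m => ∀ ρ, ∑ n ∈ range (L ρ), F ρ (D m ρ n) -
        L ρ * mn (b ρ) (w ρ) (F ρ) ≤ a ρ * √(vr (b ρ) (w ρ) (F ρ) * L ρ)).card : ℝ) / T.card -
        ∏ ρ, Phi (a ρ)| := by
    intro k
    obtain ⟨M, hM, T, D, L, h1, h2, h3⟩ := hcon k k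
    exact ⟨M, hM, T, D, L, h1, h2, h3⟩
  choose M hM T D L h1 h2 h3 using hc
  have hMt : Tendsto M atTop atTop := tendsto_atTop_mono hM tendsto_id
  have hLt : ∀ ρ, Tendsto (fun k => L k ρ) atTop atTop := fun ρ =>
    tendsto_atTop_mono (fun k => h2 k ρ) tendsto_id
  choose κ hκ C M0 hC using hS2
  have hσ' : ∀ ρ, 0 < sigma2 (b ρ) (w ρ) (cen (b ρ) (w ρ) (F ρ)) := fun ρ => by
    rw [sigma2_cen (hb ρ)]
    exact hσ ρ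
  have key := clt_joint (Kb := ∑ ρ, ∑ c ∈ range (b ρ ^ w ρ), |F ρ c - mn (b ρ) (w ρ) (F ρ)|)
    (G := fun ρ => cen (b ρ) (w ρ) (F ρ)) hb hw (fun ρ c => by
      refine (cen_le (b ρ) (w ρ) (F ρ) c).trans ?_
      exact single_le_sum (f := fun ρ => ∑ c ∈ range (b ρ ^ w ρ), |F ρ c - mn (b ρ) (w ρ) (F ρ)|)
        (fun σ _ => sum_nonneg fun _ _ => abs_nonneg _) (mem_univ ρ))
    (fun ρ => cen_sum (hb ρ) (F ρ)) hσ' T (fun k => (hS1 _ _ _ _ (h1 k)).1) D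
    (fun k => (hS1 _ _ _ _ (h1 k)).2.2) L hLt
    (fun j k => C j * (M k : ℝ) ^ (-κ j)) (fun j => by
      filter_upwards [hMt.eventually_ge_atTop (M0 j)] with k hk r n c hn
      exact hC j (M k) hk (T k) (D k) (L k) (h1 k) r n c hn)
    (fun j => err_lim hMt (Cst := Fintype.card R * A) (fun k => sum_nonneg fun ρ _ => Nat.cast_nonneg _)
      (fun k => by
        refine (sum_le_sum fun ρ _ => (hS1 _ _ _ _ (h1 k)).2.1 ρ).trans ?_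
        rw [sum_const, card_univ, nsmul_eq_mul]
        exact le_of_eq (by ring)) j (C j) (hκ j)) a
    (fun k m => ∀ ρ, ∑ n ∈ range (L k ρ), F ρ (D k m ρ n) -
        L k ρ * mn (b ρ) (w ρ) (F ρ) ≤ a ρ * √(vr (b ρ) (w ρ) (F ρ) * L k ρ))
    (fun k m => by
      refine forall_congr' fun ρ => ?_
      rw [sum_cen (F ρ) (L k ρ) (D k m ρ) ((hS1 _ _ _ _ (h1 k)).2.2 m ρ), sigma2_cen (hb ρ)]
      rfl)
  obtain ⟨k, hk⟩ := ((Metric.tendsto_nhds.mp key) ε hε).exists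
  rw [Real.dist_eq] at hk
  exact absurd hk (not_lt.mpr (h3 k).le)

open Classical Polynomial in
/-- the digits of polynomials with algebraic leading coefficients -/
theorem joint_poly {α : R → ℝ} (hα : ∀ ρ, IsAlgebraic ℚ (α ρ)) {K : R → ℕ} (hK : ∀ ρ, 1 ≤ K ρ)
    (hind : Indep α K) {b w : R → ℕ} (F : R → ℕ → ℝ) (hb : ∀ ρ, 1 ≤ b ρ)
    (hw : ∀ ρ, 1 ≤ w ρ) (hσ : ∀ ρ, 0 < vr (b ρ) (w ρ) (F ρ)) (a : R → ℝ) {ε : ℝ} (hε : 0 < ε)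
    (A : ℝ) :
    ∃ L₀ M₀ : ℕ, ∀ M : ℕ, M₀ ≤ M → ∀ f : R → ℝ[X],
      (∀ ρ, (f ρ).natDegree ≤ K ρ ∧ (f ρ).coeff (K ρ) = α ρ) → ∀ t L : R → ℕ,
      (∀ ρ, L₀ ≤ L ρ) → (∀ ρ, ((t ρ + L ρ : ℕ) : ℝ) ≤ A * log M) →
      ∀ (P : ℕ → Prop) [DecidablePred P], (∀ m, P m ↔ ∀ ρ, ∑ n ∈ range (L ρ),
        F ρ (wd (b ρ) (w ρ) (t ρ + n) ((f ρ).eval (m : ℝ))) -
        L ρ * mn (b ρ) (w ρ) (F ρ) ≤ a ρ * √(vr (b ρ) (w ρ) (F ρ) * L ρ)) →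
      |(((range M).filter P).card : ℝ) / M - ∏ ρ, Phi (a ρ)| ≤ ε := by
  obtain ⟨L₀, M₀, h⟩ := joint_unifD b w F hb hw hσ a hε A
    (fun M T D L => 1 ≤ M ∧ T = range M ∧ ∃ (f : R → ℝ[X]) (t : R → ℕ),
      (D = fun (m : ℕ) ρ n => wd (b ρ) (w ρ) (t ρ + n) ((f ρ).eval (m : ℝ))) ∧
      (∀ ρ, (f ρ).natDegree ≤ K ρ ∧ (f ρ).coeff (K ρ) = α ρ) ∧
      (∀ ρ, ((t ρ + L ρ : ℕ) : ℝ) ≤ A * log M))
    (by
      rintro M T D L ⟨hM, rfl, f, t, rfl, hf, htL⟩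
      refine ⟨⟨0, mem_range.2 (by omega)⟩, fun ρ => ?_, fun m ρ n => wd_lt (hb ρ) _ _ _⟩
      have h1 := htL ρ
      push_cast at h1
      have : (0 : ℝ) ≤ t ρ := Nat.cast_nonneg _
      linarith)
    (by
      intro j
      obtain ⟨κ, hκ, C, M0, hC⟩ := poly_tests hα hK hind hb A j
      refine ⟨κ, hκ, C, M0, ?_⟩
      rintro M hM0 T D L ⟨hM, rfl, f, t, rfl, hf, htL⟩ r n c hn
      have key := hC M hM0 f hf t L htL r n (fun i => w (r i)) c hn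
        (fun m => ∀ i, wd (b (r i)) (w (r i)) (t (r i) + n i) ((f (r i)).eval (m : ℝ)) = c i)
        (fun m => Iff.rfl)
      rw [card_range]
      exact key)
  refine ⟨L₀, max M₀ 1, fun M hM f hf t L hL htL P _ hP => ?_⟩
  have key := h M (le_of_max_le_left hM) (range M)
    (fun m ρ n => wd (b ρ) (w ρ) (t ρ + n) ((f ρ).eval (m : ℝ))) L
    ⟨le_of_max_le_right hM, rfl, f, t, rfl, hf, htL⟩ hL
  rw [card_range] at key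
  rw [filter_congr (fun n _ => hP n)]
  exact key

end Pool.Agent.T9h42.JA
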